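import Pool.Agent.Helper10.TR.Defs2
import Pool.Agent.Helper10.TR.RedImp
import Pool.Agent.Helper10.TR.ResE
import Pool.Agent.Helper98.OS.JB
import Pool.Agent.Helper26.OB.Res
import Pool.Agent.Helper11.OB.BF

/-!
# TR, block R: no critical residue at the points whose residue is fixed by Frobenius
-/

set_option autoImplicit false

namespace Pool.Agent.Helper11.TR

open MvPolynomial Pool.Agent.Helper61.TH Pool.Agent.Helper87.FK Pool.Agent.Helper26.OB Pool.Agent.Helper10.TR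

noncomputable section

section residue

variable {p : ℕ} [hp : Fact p.Prime] (τ : ℂ →+* PadicAlgCl p)

theorem rd_powR {z : ℂ} (hz : ‖τ z‖ ≤ 1) (n : ℕ) : rd τ (z ^ n) = rd τ z ^ n := by
  have h1 := rd_coe τ (⟨z, (mem_Ot τ).2 hz⟩ ^ n)
  rw [map_pow, ← rd_coe τ] at h1
  exact h1

theorem rd_pow_eqR {z w : ℂ} (hz : ‖τ z‖ ≤ 1) (hw : ‖τ w‖ ≤ 1) {n : ℕ} (h : ‖(τ z) ^ n - τ w‖ < 1) :
    rd τ z ^ n = rd τ w := by
  have hzn : ‖τ (z ^ n)‖ ≤ 1 := by
    rw [map_pow, norm_pow]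
    exact pow_le_one₀ (norm_nonneg _) hz
  have h1 : ‖τ (z ^ n - w)‖ < 1 := by
    rw [map_sub, map_pow]
    exact h
  have h2 : rd τ (z ^ n - w) = 0 := (rd_eq_zero τ h1.le).2 h1
  rw [Pool.Agent.Helper11.OB.rd_sub τ hzn hw, rd_powR τ hz] at h2
  exact sub_eq_zero.1 h2

/-- Frobenius moves the value of `h` to the value of the polynomial with moved coefficients -/
theorem rd_frob {ι : Type} (h h' : MvPolynomial ι ℂ) (k : ℕ) (t : ι → ℂ) (ht : ∀ i, ‖τ (t i)‖ ≤ 1)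
    (htF : ∀ i, ‖(τ (t i)) ^ p - τ (t i)‖ < 1) (hh : ∀ u, ‖τ (coeff u h)‖ ≤ 1)
    (hh' : ∀ u, ‖τ (coeff u h')‖ ≤ 1 ∧ ‖(τ (coeff u h)) ^ p ^ k - τ (coeff u h')‖ < 1) :
    rd τ (eval t h') = rd τ (eval t h) ^ p ^ k := by
  have := charP_kk p
  rw [(rd_eval τ h' (fun u => (hh' u).1) t ht).2, (rd_eval τ h hh t ht).2]
  have h1 : rp τ h' = map (iterateFrobenius (kk p) p k) (rp τ h) := by
    ext u
    rw [coeff_map, coeff_rp, coeff_rp, iterateFrobenius_def]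
    exact (rd_pow_eqR τ (hh u) (hh' u).1 (hh' u).2).symm
  have h2 : ∀ (k : ℕ) (i : ι), rd τ (t i) ^ p ^ k = rd τ (t i) := by
    intro k i
    induction k with
    | zero => rw [pow_zero, pow_one]
    | succ k ih => rw [pow_succ, pow_mul, ih, rd_pow_eqR τ (ht i) (ht i) (htF i)]
  have h3 : eval (fun v => rd τ (t v)) (map (iterateFrobenius (kk p) p k) (rp τ h)) =
      iterateFrobenius (kk p) p k (eval (fun v => rd τ (t v)) (rp τ h)) := by
    rw [eval_map]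
    have h4 : (fun v => rd τ (t v)) = iterateFrobenius (kk p) p k ∘ (fun v => rd τ (t v)) := by
      funext i
      exact (h2 k i).symm
    conv_lhs => rw [h4]
    exact (eval₂_comp_left (iterateFrobenius (kk p) p k) (RingHom.id _) _ _).symm
  rw [h1, h3, iterateFrobenius_def]

end residue

/-- finitely many witnesses -/
theorem finite_wit {X Y : Type} (C : Set X) (P : Y → Prop) (R : X → Y → Prop) (T : Finset Y)
    (hT : ∀ q ∈ T, P q ∨ ∃ h ∈ C, R h q) : ∃ H : Finset X, (∀ h ∈ H, h ∈ C) ∧ ∀ q ∈ T, P q ∨ ∃ h ∈ H, R h q := by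
  classical
  induction T using Finset.induction_on with
  | empty => exact ⟨∅, by simp, by simp⟩
  | insert a T ha ih =>
    obtain ⟨H, h1, h2⟩ := ih (fun q hq => hT q (Finset.mem_insert_of_mem hq))
    rcases hT a (Finset.mem_insert_self a T) with h3 | ⟨h, hC, hR⟩
    · refine ⟨H, h1, fun q hq => ?_⟩
      rcases Finset.mem_insert.1 hq with rfl | hq
      · exact Or.inl h3
      · exact h2 q hq
    · refine ⟨insert h H, fun x hx => ?_, fun q hq => ?_⟩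
      · rcases Finset.mem_insert.1 hx with rfl | hx
        · exact hC
        · exact h1 x hx
      · rcases Finset.mem_insert.1 hq with rfl | hq
        · exact Or.inr ⟨h, Finset.mem_insert_self _ _, hR⟩
        · rcases h2 q hq with h4 | ⟨x, hx, h5⟩
          · exact Or.inl h4
          · exact Or.inr ⟨x, Finset.mem_insert_of_mem hx, h5⟩

theorem closedR (A : Subfield ℂ) (hA : ∀ z, z ∈ A ↔ IsAlgebraic ℚ z) : ∀ z : ℂ, IsAlgebraic A z → z ∈ A := by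
  intro z hz
  have : Algebra.IsAlgebraic ℚ A := ⟨fun x => by
    have h1 := (hA x).1 x.2
    exact (isAlgebraic_algebraMap_iff (A := ℂ) (algebraMap A ℂ).injective).1 h1⟩
  exact (hA z).2 (hz.restrictScalars ℚ)

theorem algR (s : ℂ →+* ℂ) (j : ℕ) {z : ℂ} (hz : IsAlgebraic ℚ z) : IsAlgebraic ℚ ((s ^ j) z) :=
  hz.algHom (s ^ j).toRatAlgHom

theorem coeffs_mulR (A : Subfield ℂ) {ι : Type} {P Q : MvPolynomial ι ℂ} (hP : ∀ u, coeff u P ∈ A)
    (hQ : ∀ u, coeff u Q ∈ A) : ∀ u, coeff u (P * Q) ∈ A := by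
  obtain ⟨P', rfl⟩ := Pool.Agent.Helper26.OS.exists_map98 A P hP
  obtain ⟨Q', rfl⟩ := Pool.Agent.Helper26.OS.exists_map98 A Q hQ
  intro u
  rw [← map_mul, coeff_map]
  exact (coeff u (P' * Q')).2

theorem coeffs_prodR (A : Subfield ℂ) {ι κ : Type} (T : Finset κ) (η : κ → MvPolynomial ι ℂ)
    (h : ∀ i ∈ T, ∀ u, coeff u (η i) ∈ A) : ∀ u, coeff u (∏ i ∈ T, η i) ∈ A := by
  classical
  induction T using Finset.induction_on with
  | empty =>
    intro u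
    rw [Finset.prod_empty, coeff_one]
    split_ifs
    · exact A.one_mem
    · exact A.zero_mem
  | insert a T ha ih =>
    rw [Finset.prod_insert ha]
    exact coeffs_mulR A (h a (Finset.mem_insert_self a T)) (ih fun i hi => h i (Finset.mem_insert_of_mem hi))

/-- step 1: one of finitely many equations of `C` is a unit -/
theorem unit_wit (A : Subfield ℂ) (hA : ∀ z, z ∈ A ↔ IsAlgebraic ℚ z) (s : ℂ →+* ℂ) {m : ℕ}
    (B : Set (MvPolynomial (Fin m) ℂ)) (hB : ∀ g ∈ B, ∀ u, coeff u g ∈ A) (D : Finset (MvPolynomial (Fin m) ℂ))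
    (hD : ∀ g ∈ D, ∀ u, coeff u g ∈ A) (C : Set (MvPolynomial (Fin m) ℂ))
    (hC : ∀ h ∈ C, ∀ u, IsAlgebraic ℚ (coeff u h))
    (hmove : ∀ t, InX B ↑D t → ∃ j : ℕ, ∃ h ∈ C, eval t (map (s ^ j) h) ≠ 0) :
    ∃ (H : Finset (MvPolynomial (Fin m) ℂ)) (Z : Finset ℂ), (∀ h ∈ H, h ∈ C) ∧ (∀ z ∈ Z, z ∈ A) ∧
      ∀ (p : ℕ) [Fact p.Prime] (τ : ℂ →+* PadicAlgCl p), Un τ Z → FrobPlus s τ Z →
        ∀ t : Fin m → ℂ, (∀ g ∈ B, eval t g = 0) → (∀ i, ‖τ (t i)‖ ≤ 1) → (∃ g ∈ D, ‖τ (eval t g)‖ = 1) →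
          (∀ i, ‖(τ (t i)) ^ p - τ (t i)‖ < 1) → ∃ h ∈ H, ‖τ (eval t h)‖ = 1 := by
  classical
  have hA' := closedR A hA
  obtain ⟨S, hSdef⟩ : ∃ S : Set (MvPolynomial (Fin m) ℂ), ∀ q, q ∈ S ↔ q ∈ B ∨ ∃ h ∈ C, ∃ j : ℕ, q = map (s ^ j) h :=
    ⟨{q | q ∈ B ∨ ∃ h ∈ C, ∃ j : ℕ, q = map (s ^ j) h}, fun q => Iff.rfl⟩
  have hS : ∀ q ∈ S, ∀ u, coeff u q ∈ A := by
    intro q hq u
    rcases (hSdef q).1 hq with hq | ⟨h, hh, j, rfl⟩
    · exact hB q hq u
    · rw [coeff_map]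
      exact (hA _).2 (algR s j (hC h hh u))
  have h0 : ∀ g ∈ D, ∀ y : Fin m → ℂ, (∀ q ∈ S, eval y q = 0) → eval y g = 0 := by
    intro g hg y hy
    by_contra hne
    obtain ⟨j, h, hh, h3⟩ := hmove y ⟨fun q hq => hy q ((hSdef q).2 (Or.inl hq)), g, hg, hne⟩
    exact h3 (hy _ ((hSdef _).2 (Or.inr ⟨h, hh, j, rfl⟩)))
  have h1 : ∀ g : D, ∃ (Q : Finset (MvPolynomial (Fin m) ℂ)) (Z : Finset ℂ),
      (∀ q ∈ Q, q ∈ S) ∧ (∀ z ∈ Z, z ∈ A) ∧
      ∀ (p : ℕ) [Fact p.Prime] (τ : ℂ →+* PadicAlgCl p), Un τ Z → ∀ y : Fin m → ℂ, (∀ v, ‖τ (y v)‖ ≤ 1) →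
        (∀ q ∈ Q, ‖τ (eval y q)‖ < 1) → ‖τ (eval y g.1)‖ < 1 := fun g =>
    red_imp A hA' S hS g.1 (hD g.1 g.2) (h0 g.1 g.2)
  choose Q Z hQ hZ hred using h1
  obtain ⟨H, hHC, hH⟩ := finite_wit C (fun q => q ∈ B) (fun h q => ∃ j : ℕ, q = map (s ^ j) h)
    ((Finset.univ : Finset D).biUnion Q) (by
      intro q hq
      obtain ⟨g, -, hg⟩ := Finset.mem_biUnion.1 hq
      exact (hSdef q).1 (hQ g q hg))
  refine ⟨H, (Finset.univ : Finset D).biUnion Z ∪ H.biUnion fun h => h.support.image fun u => coeff u h, hHC, ?_, ?_⟩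
  · intro z hz
    rcases Finset.mem_union.1 hz with hz | hz
    · obtain ⟨g, -, hg⟩ := Finset.mem_biUnion.1 hz
      exact hZ g z hg
    · obtain ⟨h, hh, hz⟩ := Finset.mem_biUnion.1 hz
      obtain ⟨u, -, rfl⟩ := Finset.mem_image.1 hz
      exact (hA _).2 (hC h (hHC h hh) u)
  · intro p _ τ hUn hFr t htB ht ⟨g, hgD, hg⟩ htF
    by_contra hcon
    push Not at hcon
    have hco : ∀ h ∈ H, ∀ u, coeff u h = 0 ∨ coeff u h ∈ (Finset.univ : Finset D).biUnion Z ∪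
        H.biUnion fun h => h.support.image fun u => coeff u h := by
      intro h hh u
      by_cases h0 : coeff u h = 0
      · exact Or.inl h0
      · exact Or.inr (Finset.mem_union_right _ (Finset.mem_biUnion.2 ⟨h, hh, Finset.mem_image.2
          ⟨u, mem_support_iff.2 h0, rfl⟩⟩))
    have hint : ∀ h ∈ H, ∀ u, ‖τ (coeff u h)‖ ≤ 1 := by
      intro h hh u
      rcases hco h hh u with h0 | h0
      · rw [h0, map_zero, norm_zero]
        exact zero_le_one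
      · exact (hUn _ h0).1
    have hlt : ∀ h ∈ H, ‖τ (eval t h)‖ < 1 := fun h hh =>
      lt_of_le_of_ne (rd_eval τ h (hint h hh) t ht).1 (hcon h hh)
    have hmv : ∀ h ∈ H, ∀ j : ℕ, ‖τ (eval t (map (s ^ j) h))‖ < 1 := by
      intro h hh j
      obtain ⟨k, hk⟩ := hFr j
      have h' : ∀ u, ‖τ (coeff u (map (s ^ j) h))‖ ≤ 1 ∧
          ‖(τ (coeff u h)) ^ p ^ k - τ (coeff u (map (s ^ j) h))‖ < 1 := by
        intro u
        rw [coeff_map]
        rcases hco h hh u with h0 | h0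
        · rw [h0, map_zero, map_zero, norm_zero, zero_pow (pow_ne_zero _ (Fact.out : p.Prime).ne_zero), sub_zero, norm_zero]
          exact ⟨zero_le_one, zero_lt_one⟩
        · exact hk _ h0
      have h3 := rd_frob τ h (map (s ^ j) h) k t ht htF (hint h hh) h'
      have h4 : rd τ (eval t h) = 0 := (rd_eq_zero τ (hlt h hh).le).2 (hlt h hh)
      rw [h4, zero_pow (pow_ne_zero _ (Fact.out : p.Prime).ne_zero)] at h3
      exact (rd_eq_zero τ (rd_eval τ _ (fun u => (h' u).1) t ht).1).1 h3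
    have h5 := hred ⟨g, hgD⟩ p τ (fun z hz => hUn z (Finset.mem_union_left _ (Finset.mem_biUnion.2
      ⟨⟨g, hgD⟩, Finset.mem_univ _, hz⟩))) t ht (by
        intro q hq
        rcases hH q (Finset.mem_biUnion.2 ⟨⟨g, hgD⟩, Finset.mem_univ _, hq⟩) with h6 | ⟨h, hh, j, rfl⟩
        · rw [htB q h6, map_zero, norm_zero]
          exact zero_lt_one
        · exact hmv h hh j)
    exact absurd hg h5.ne

/-- **TR-R**: no critical residue at a point whose residue is fixed by Frobenius. -/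
theorem ram_unit (A : Subfield ℂ) (hA : ∀ z, z ∈ A ↔ IsAlgebraic ℚ z) (s : ℂ ≃+* ℂ) {m : ℕ}
    (B : Set (MvPolynomial (Fin m) ℂ)) (hB : ∀ g ∈ B, ∀ u, coeff u g ∈ A) (D : Finset (MvPolynomial (Fin m) ℂ))
    (hD : ∀ g ∈ D, ∀ u, coeff u g ∈ A) (F : Fin m → MvPolynomial (Fin m) ℂ) (hF : ∀ i u, coeff u (F i) ∈ A)
    (hs : SFree (s : ℂ →+* ℂ) F B ↑D) : ∃ Z : Finset ℂ, (∀ z ∈ Z, z ∈ A) ∧
      ∀ (p : ℕ) [Fact p.Prime] (τ : ℂ →+* PadicAlgCl p), Un τ Z → FrobPlus (s : ℂ →+* ℂ) τ Z →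
        ∀ t : Fin m → ℂ, (∀ g ∈ B, eval t g = 0) → (∀ i, ‖τ (t i)‖ ≤ 1) → (∃ g ∈ D, ‖τ (eval t g)‖ = 1) →
          (∀ i, ‖(τ (t i)) ^ p - τ (t i)‖ < 1) → ‖τ (jac F t).det‖ = 1 := by
  classical
  have hA' := closedR A hA
  obtain ⟨K, C, hC, hcov, hmove⟩ := hs
  obtain ⟨J, hJ⟩ := Pool.Agent.Helper26.OS.exists_jacPoly98 A F hF
  have hJA : ∀ u, coeff u (map A.subtype J) ∈ A := by
    intro u
    rw [coeff_map]
    exact (coeff u J).2
  choose H Z1 hHC hZ1 hwit using fun i => unit_wit A hA (s : ℂ →+* ℂ) B hB D hD (C i) (hC i) (hmove i)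
  have hHA : ∀ i, ∀ h ∈ H i, ∀ u, coeff u h ∈ A := fun i h hh u => (hA _).2 (hC i h (hHC i h hh) u)
  obtain ⟨S, hSdef⟩ : ∃ S : Set (MvPolynomial (Fin m) ℂ), ∀ q, q ∈ S ↔ q ∈ B ∨ q = map A.subtype J :=
    ⟨{q | q ∈ B ∨ q = map A.subtype J}, fun q => Iff.rfl⟩
  have hS : ∀ q ∈ S, ∀ u, coeff u q ∈ A := by
    intro q hq u
    rcases (hSdef q).1 hq with hq | rfl
    · exact hB q hq u
    · exact hJA u
  have h0 : ∀ η : Fin K → MvPolynomial (Fin m) ℂ, (∀ i, η i ∈ H i) → ∀ g ∈ D, ∀ y : Fin m → ℂ,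
      (∀ q ∈ S, eval y q = 0) → eval y (g * ∏ i, η i) = 0 := by
    intro η hη g hg y hy
    rw [map_mul, map_prod]
    by_cases h0 : eval y g = 0
    · rw [h0, zero_mul]
    · have hX : InX B ↑D y := ⟨fun q hq => hy q ((hSdef q).2 (Or.inl hq)), g, hg, h0⟩
      obtain ⟨i, hi⟩ := hcov y hX (by rw [hJ]; exact hy _ ((hSdef _).2 (Or.inr rfl)))
      rw [Finset.prod_eq_zero (Finset.mem_univ i) (hi _ (hHC i _ (hη i))), mul_zero]
  have h2 : ∀ (η : Fintype.piFinset H) (g : D), ∃ (Q : Finset (MvPolynomial (Fin m) ℂ)) (Z : Finset ℂ),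
      (∀ q ∈ Q, q ∈ S) ∧ (∀ z ∈ Z, z ∈ A) ∧
      ∀ (p : ℕ) [Fact p.Prime] (τ : ℂ →+* PadicAlgCl p), Un τ Z → ∀ y : Fin m → ℂ, (∀ v, ‖τ (y v)‖ ≤ 1) →
        (∀ q ∈ Q, ‖τ (eval y q)‖ < 1) → ‖τ (eval y (g.1 * ∏ i, η.1 i))‖ < 1 := fun η g =>
    red_imp A hA' S hS (g.1 * ∏ i, η.1 i) (coeffs_mulR A (hD g.1 g.2) (coeffs_prodR A _ _ fun i _ =>
      hHA i _ (Fintype.mem_piFinset.1 η.2 i))) (h0 η.1 (Fintype.mem_piFinset.1 η.2) g.1 g.2)
  choose Q Z2 hQ hZ2 hred using h2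
  refine ⟨(Finset.univ : Finset (Fin K)).biUnion Z1 ∪
    ((Finset.univ : Finset (Fintype.piFinset H × D)).biUnion (fun a => Z2 a.1 a.2) ∪
      (((Finset.univ : Finset (Fin K)).biUnion H ∪ D ∪ {map A.subtype J}).biUnion
        fun h => h.support.image fun u => coeff u h)), ?_, ?_⟩
  · intro z hz
    rcases Finset.mem_union.1 hz with hz | hz
    · obtain ⟨i, -, hz⟩ := Finset.mem_biUnion.1 hz
      exact hZ1 i z hz
    · rcases Finset.mem_union.1 hz with hz | hz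
      · obtain ⟨a, -, hz⟩ := Finset.mem_biUnion.1 hz
        exact hZ2 a.1 a.2 z hz
      · obtain ⟨h, hh, hz⟩ := Finset.mem_biUnion.1 hz
        obtain ⟨u, -, rfl⟩ := Finset.mem_image.1 hz
        rcases Finset.mem_union.1 hh with hh | hh
        · rcases Finset.mem_union.1 hh with hh | hh
          · obtain ⟨i, -, hh⟩ := Finset.mem_biUnion.1 hh
            exact hHA i h hh u
          · exact hD h hh u
        · rw [Finset.mem_singleton.1 hh]
          exact hJA u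
  · intro p _ τ hUn hFr t htB ht hgD htF
    have hsub1 : ∀ i, ∀ z ∈ Z1 i, z ∈ (Finset.univ : Finset (Fin K)).biUnion Z1 ∪
        ((Finset.univ : Finset (Fintype.piFinset H × D)).biUnion (fun a => Z2 a.1 a.2) ∪
        (((Finset.univ : Finset (Fin K)).biUnion H ∪ D ∪ {map A.subtype J}).biUnion
          fun h => h.support.image fun u => coeff u h)) := fun i z hz =>
      Finset.mem_union_left _ (Finset.mem_biUnion.2 ⟨i, Finset.mem_univ _, hz⟩)
    have hw : ∀ i, ∃ h ∈ H i, ‖τ (eval t h)‖ = 1 := fun i =>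
      hwit i p τ (fun z hz => hUn z (hsub1 i z hz)) (fun l => by
        obtain ⟨k, hk⟩ := hFr l
        exact ⟨k, fun z hz => hk z (hsub1 i z hz)⟩) t htB ht hgD htF
    choose η hη hηu using hw
    obtain ⟨g, hg, hgu⟩ := hgD
    have hJint : ‖τ (eval t (map A.subtype J))‖ ≤ 1 := by
      refine (rd_eval τ _ (fun u => ?_) t ht).1
      by_cases h0 : coeff u (map A.subtype J) = 0
      · rw [h0, map_zero, norm_zero]
        exact zero_le_one
      · exact (hUn _ (Finset.mem_union_right _ (Finset.mem_union_right _ (Finset.mem_biUnion.2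
          ⟨map A.subtype J, Finset.mem_union_right _ (Finset.mem_singleton_self _), Finset.mem_image.2
            ⟨u, mem_support_iff.2 h0, rfl⟩⟩)))).1
    rw [hJ]
    by_contra hne
    have hlt := lt_of_le_of_ne hJint hne
    have hηm : η ∈ Fintype.piFinset H := Fintype.mem_piFinset.2 hη
    have h5 := hred ⟨η, hηm⟩ ⟨g, hg⟩ p τ (fun z hz => hUn z (Finset.mem_union_right _ (Finset.mem_union_left _
      (Finset.mem_biUnion.2 ⟨(⟨η, hηm⟩, ⟨g, hg⟩), Finset.mem_univ _, hz⟩)))) t ht (by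
        intro q hq
        rcases (hSdef q).1 (hQ ⟨η, hηm⟩ ⟨g, hg⟩ q hq) with h6 | rfl
        · rw [htB q h6, map_zero, norm_zero]
          exact zero_lt_one
        · exact hlt)
    rw [map_mul, map_mul, map_prod, map_prod, norm_mul, norm_prod, hgu, one_mul,
      Finset.prod_congr rfl (fun i _ => hηu i), Finset.prod_const_one] at h5
    exact absurd h5 (lt_irrefl _)

end

end Pool.Agent.Helper11.TR
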