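import Pool.Agent.Helper10.TR.Defs
import Pool.Agent.Helper11.OS.GRB

/-!
# TR, block B: the leading coefficients are units
-/

set_option autoImplicit false

namespace Pool.Agent.Helper11.TR

open MvPolynomial Pool.Agent.Helper61.TH Pool.Agent.Helper87.FK Pool.Agent.Helper26.OB Pool.Agent.Helper10.TR
open Pool.Agent.Helper11.OS (exists_lift bezoutB eval_mem)

noncomputable section

/-- the coefficient of `X_v ^ j` -/
def cf {ι R : Type} [DecidableEq ι] [CommRing R] (v : ι) (j : ℕ) (P : MvPolynomial ι R) : MvPolynomial ι R :=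
  ∑ s ∈ P.support, if j = s v then monomial (s.erase v) (coeff s P) else 0

theorem eval_cf {ι R R' : Type} [DecidableEq ι] [Fintype ι] [CommRing R] [CommRing R'] (f : R →+* R') (v : ι) (j : ℕ)
    (P : MvPolynomial ι R) (y : ι → R') :
    eval₂ f y (cf v j P) = ∑ s ∈ P.support, if j = s v then f (coeff s P) * ∏ w ∈ Finset.univ.erase v, y w ^ s w else 0 := by
  rw [cf, ← coe_eval₂Hom, map_sum]
  refine Finset.sum_congr rfl fun s _ => ?_
  split_ifs with h
  · rw [coe_eval₂Hom, eval₂_monomial, Finsupp.prod_fintype _ _ (fun i => pow_zero _)]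
    congr 1
    rw [← Finset.mul_prod_erase _ _ (Finset.mem_univ v), Finsupp.erase_same, pow_zero, one_mul]
    refine Finset.prod_congr rfl fun w hw => ?_
    rw [Finsupp.erase_ne (Finset.ne_of_mem_erase hw)]
  · exact map_zero _

theorem coeff_fib {ι R R' : Type} [DecidableEq ι] [Fintype ι] [CommRing R] [CommRing R'] (f : R →+* R') (v : ι) (j : ℕ)
    (P : MvPolynomial ι R) (y : ι → R') : (fib v y (map f P)).coeff j = eval₂ f y (cf v j P) := by
  rw [eval_cf, fib, eval₂_map, eval₂_eq', Polynomial.finsetSum_coeff]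
  refine Finset.sum_congr rfl fun s _ => ?_
  have h1 : ∏ i, (if i = v then Polynomial.X else Polynomial.C (y i)) ^ s i =
      Polynomial.C (∏ w ∈ Finset.univ.erase v, y w ^ s w) * Polynomial.X ^ s v := by
    rw [← Finset.mul_prod_erase _ _ (Finset.mem_univ v), if_pos rfl, map_prod, mul_comm]
    congr 1
    refine Finset.prod_congr rfl fun w hw => ?_
    rw [if_neg (Finset.ne_of_mem_erase hw), map_pow]
  rw [h1, RingHom.comp_apply, ← mul_assoc, ← map_mul, Polynomial.coeff_C_mul, Polynomial.coeff_X_pow]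
  split_ifs
  · rw [mul_one]
  · rw [mul_zero]

/-- **TR-B**: the leading coefficients are units at the integral points of `B × A^n` -/
theorem lead_unit (A : Subfield ℂ) (hA : ∀ z : ℂ, IsAlgebraic A z → z ∈ A) {m n : ℕ} (B : Set (MvPolynomial (Fin m) ℂ))
    (hB : ∀ g ∈ B, ∀ s, coeff s g ∈ A) (P : Fin n → MvPolynomial (Fin m ⊕ Fin n) ℂ) (hP : ∀ r s, coeff s (P r) ∈ A)
    (e : Fin n → ℕ) (he : ∀ r, 1 ≤ e r)
    (hdeg : ∀ y : Fin m ⊕ Fin n → ℂ, (∀ g ∈ B, eval (fun i => y (Sum.inl i)) g = 0) → ∀ r,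
      (fib (Sum.inr r) y (P r)).natDegree = e r) : ∃ Z : Finset ℂ, (∀ z ∈ Z, z ∈ A) ∧
      ∀ (p : ℕ) [Fact p.Prime] (τ : ℂ →+* PadicAlgCl p), Un τ Z → ∀ y : Fin m ⊕ Fin n → ℂ,
        (∀ g ∈ B, eval (fun i => y (Sum.inl i)) g = 0) → (∀ v, ‖τ (y v)‖ ≤ 1) → ∀ r,
          ‖τ ((fib (Sum.inr r) y (P r)).coeff (e r))‖ = 1 := by
  classical
  choose P' hP' using fun r => exists_lift A (P r) (hP r)
  set S : Set (MvPolynomial (Fin m ⊕ Fin n) A) :=
    rename Sum.inl '' {b : MvPolynomial (Fin m) A | map (algebraMap A ℂ) b ∈ B} with hS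
  have hbez : ∀ r, ∃ (u : Fin 2 → MvPolynomial (Fin m ⊕ Fin n) A) (v : MvPolynomial (Fin m ⊕ Fin n) A),
      v ∈ Ideal.span S ∧ ∑ i, u i * cf (Sum.inr r) (e r) (P' r) + v = 1 := by
    intro r
    refine bezoutB A S (fun _ => cf (Sum.inr r) (e r) (P' r)) ?_
    intro y hy h0
    have h1 : ∀ g ∈ B, eval (fun i => y (Sum.inl i)) g = 0 := by
      intro b hb
      obtain ⟨b', hb'⟩ := exists_lift A b (hB b hb)
      have h1 := hy (rename Sum.inl b') ⟨b', by rw [Set.mem_ofPred_eq, hb']; exact hb, rfl⟩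
      rw [aeval_def, eval₂_rename] at h1
      rw [← hb', eval_map]
      exact h1
    have h2 := hdeg y h1 r
    have h3 := h0 0
    rw [aeval_def, ← coeff_fib, hP' r, ← h2] at h3
    have h4 : fib (Sum.inr r) y (P r) = 0 := Polynomial.leadingCoeff_eq_zero.mp h3
    rw [h4, Polynomial.natDegree_zero] at h2
    have := he r
    omega
  choose u v hv huv using hbez
  refine ⟨(Finset.univ.biUnion fun r => (Finset.univ : Finset (Fin 2)).biUnion fun i =>
    (u r i).support.image fun s => ((coeff s (u r i) : A) : ℂ)) ∪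
      Finset.univ.biUnion fun r => (P' r).support.image fun s => ((coeff s (P' r) : A) : ℂ), ?_, ?_⟩
  · intro z hz
    rcases Finset.mem_union.mp hz with h | h
    · obtain ⟨r, -, hr⟩ := Finset.mem_biUnion.mp h
      obtain ⟨i, -, hi⟩ := Finset.mem_biUnion.mp hr
      obtain ⟨s, -, rfl⟩ := Finset.mem_image.mp hi
      exact (coeff s (u r i)).2
    · obtain ⟨r, -, hr⟩ := Finset.mem_biUnion.mp h
      obtain ⟨s, -, rfl⟩ := Finset.mem_image.mp hr
      exact (coeff s (P' r)).2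
  intro p _ τ hU y hyB hy r
  set φ : A →+* PadicAlgCl p := τ.comp (algebraMap A ℂ) with hφ
  set y' : Fin m ⊕ Fin n → PadicAlgCl p := fun i => τ (y i) with hy'
  have hyO : ∀ i, y' i ∈ Oc p := fun i => mem_Oc.2 (hy i)
  have huO : ∀ i, eval₂ φ y' (u r i) ∈ Oc p := by
    intro i
    apply eval_mem φ _ _ _ hyO
    intro s
    by_cases hs : coeff s (u r i) = 0
    · rw [hs, map_zero, norm_zero]
      exact zero_le_one
    · exact (hU _ (Finset.mem_union_left _ (Finset.mem_biUnion.mpr ⟨r, Finset.mem_univ r, Finset.mem_biUnion.mpr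
        ⟨i, Finset.mem_univ i, Finset.mem_image.mpr ⟨s, mem_support_iff.mpr hs, rfl⟩⟩⟩))).1
  have hτ : ∀ Q : MvPolynomial (Fin m ⊕ Fin n) A, eval₂ φ y' Q = τ (eval₂ (algebraMap A ℂ) y Q) := by
    intro Q
    rw [eval₂_comp_left τ]
    rfl
  have hL : τ ((fib (Sum.inr r) y (P r)).coeff (e r)) = eval₂ φ y' (cf (Sum.inr r) (e r) (P' r)) := by
    rw [← hP' r, coeff_fib, hτ]
  have hLO : eval₂ φ y' (cf (Sum.inr r) (e r) (P' r)) ∈ Oc p := by
    rw [eval_cf]
    refine sum_mem fun s hs => ?_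
    split_ifs
    · refine mul_mem (mem_Oc.2 ?_) (prod_mem fun w _ => pow_mem (hyO w) _)
      exact (hU _ (Finset.mem_union_right _ (Finset.mem_biUnion.mpr ⟨r, Finset.mem_univ r,
        Finset.mem_image.mpr ⟨s, hs, rfl⟩⟩))).1
    · exact zero_mem _
  have hv0 : eval₂Hom φ y' (v r) = 0 := by
    have h1 : Ideal.span S ≤ RingHom.ker (eval₂Hom φ y') := by
      rw [Ideal.span_le]
      rintro _ ⟨b, hb, rfl⟩
      rw [SetLike.mem_coe, RingHom.mem_ker, coe_eval₂Hom, hτ, eval₂_rename]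
      have h2 : eval₂ (algebraMap A ℂ) (y ∘ Sum.inl) b = eval (fun i => y (Sum.inl i)) (map (algebraMap A ℂ) b) := by
        rw [eval_map]
        rfl
      rw [h2, hyB _ hb, map_zero]
    exact h1 (hv r)
  have h1 := congrArg (eval₂Hom φ y') (huv r)
  rw [map_add, hv0, add_zero, map_one, Fin.sum_univ_two, ← add_mul, map_mul, map_add] at h1
  simp only [coe_eval₂Hom] at h1
  rw [hL]
  have h2 : ‖eval₂ φ y' (u r 0) + eval₂ φ y' (u r 1)‖ ≤ 1 := mem_Oc.1 (add_mem (huO 0) (huO 1))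
  have h3 : ‖eval₂ φ y' (cf (Sum.inr r) (e r) (P' r))‖ ≤ 1 := mem_Oc.1 hLO
  have h4 := congrArg norm h1
  rw [norm_mul, norm_one] at h4
  nlinarith [norm_nonneg (eval₂ φ y' (u r 0) + eval₂ φ y' (u r 1)), norm_nonneg (eval₂ φ y' (cf (Sum.inr r) (e r) (P' r)))]

end

end Pool.Agent.Helper11.TR
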