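import Pool.Agent.Helper10.TR.ResE
import Pool.Agent.Helper11.OB.BF

/-!
# TR, block G: critical points of the reduction are reductions of critical points
-/

set_option autoImplicit false

namespace Pool.Agent.Helper11.TR

open MvPolynomial Pool.Agent.Helper61.TH Pool.Agent.Helper87.FK Pool.Agent.Helper26.OB Pool.Agent.Helper10.TR

noncomputable section

/-- multiples of integral numbers -/
theorem rd_mul_nat {p : ℕ} [Fact p.Prime] (τ : ℂ →+* PadicAlgCl p) {a : ℂ} (ha : ‖τ a‖ ≤ 1) (n : ℕ) :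
    ‖τ (a * n)‖ ≤ 1 ∧ rd τ (a * n) = rd τ a * n := by
  have h1 : (((⟨τ a, mem_Oc.2 ha⟩ : Oc p) * (n : Oc p) : Oc p) : PadicAlgCl p) = τ (a * n) := by
    rw [map_mul, map_natCast]
    push_cast
    rfl
  refine ⟨?_, ?_⟩
  · rw [← h1]
    exact mem_Oc.1 (Subtype.property _)
  · rw [Pool.Agent.Helper11.OB.rd_of_mk τ _ h1, map_mul, map_natCast, Pool.Agent.Helper11.OB.rd_eq τ ha]

/-- **TR-G**: critical points of the reduction are reductions of critical points -/
theorem crit_rd {ι : Type} [DecidableEq ι] {p : ℕ} [Fact p.Prime] (τ : ℂ →+* PadicAlgCl p) (P : MvPolynomial ι ℂ)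
    (hP : ∀ s, ‖τ (coeff s P)‖ ≤ 1) (y : ι → ℂ) (hy : ∀ v, ‖τ (y v)‖ ≤ 1) (v : ι) (e : ℕ) (he : 1 ≤ e) (hep : e < p)
    (hdeg : (fib v y P).natDegree = e) (hlead : ‖τ ((fib v y P).coeff e)‖ = 1)
    (hint : ∀ c, (Polynomial.derivative (fib v y P)).eval c = 0 → ‖τ c‖ ≤ 1) (w : kk p)
    (hw : (Polynomial.derivative (fib v (fun u => rd τ (y u)) (rp τ P))).eval w = 0) :
    ∃ c, (Polynomial.derivative (fib v y P)).eval c = 0 ∧ w = rd τ c := by
  have := charP_kk p
  set Q := fib v y P with hQ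
  set D := Polynomial.derivative Q with hD
  have hc := fun j => rd_fib τ P hP y hy v j
  have hDc : ∀ j, D.coeff j = Q.coeff (j + 1) * ((j + 1 : ℕ) : ℂ) := by
    intro j
    rw [hD, Polynomial.coeff_derivative]
    push_cast
    rfl
  have hQe : Q.coeff e ≠ 0 := by
    intro h0
    rw [h0, map_zero, norm_zero] at hlead
    exact zero_ne_one hlead
  have he' : e - 1 + 1 = e := by omega
  have hDe : D.coeff (e - 1) ≠ 0 := by
    rw [hDc, he']
    exact mul_ne_zero hQe (by exact_mod_cast (by omega : e ≠ 0))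
  have hDdeg : D.natDegree = e - 1 := by
    refine le_antisymm ?_ (Polynomial.le_natDegree_of_ne_zero hDe)
    rw [← hdeg]
    exact Polynomial.natDegree_derivative_le Q
  have hlc : D.leadingCoeff = Q.coeff e * ((e : ℕ) : ℂ) := by
    rw [Polynomial.leadingCoeff, hDdeg, hDc, he']
  have hl1 := rd_mul_nat τ hlead.le e
  have hl0 : rd τ D.leadingCoeff ≠ 0 := by
    rw [hlc, hl1.2]
    refine mul_ne_zero (Pool.Agent.Helper11.OB.rd_ne_zero τ hlead) ?_
    rw [Ne, CharP.cast_eq_zero_iff (kk p) p]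
    intro h
    exact absurd (Nat.le_of_dvd he h) (not_le.2 hep)
  have hD0 : D ≠ 0 := by
    intro h0
    apply hDe
    rw [h0, Polynomial.coeff_zero]
  have hr : ∀ z ∈ D.roots, ‖τ z‖ ≤ 1 := fun z hz => hint z (Polynomial.mem_roots'.mp hz).2
  have hrd := Pool.Agent.Helper11.OB.rd_coeff τ (P := D) (by rw [hlc]; exact hl1.1) hr
  have hpoly : Polynomial.derivative (fib v (fun u => rd τ (y u)) (rp τ P)) =
      Polynomial.C (rd τ D.leadingCoeff) * (D.roots.map fun z => Polynomial.X - Polynomial.C (rd τ z)).prod := by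
    refine Polynomial.ext fun j => ?_
    rw [← hrd j, Polynomial.coeff_derivative, ← (hc (j + 1)).2, hDc, (rd_mul_nat τ (hc (j + 1)).1 (j + 1)).2]
    push_cast
    rfl
  rw [hpoly, Polynomial.eval_mul, Polynomial.eval_C, Polynomial.eval_multiset_prod, Multiset.map_map] at hw
  have h4 := (mul_eq_zero.mp hw).resolve_left hl0
  rw [Multiset.prod_eq_zero_iff, Multiset.mem_map] at h4
  obtain ⟨z, hz, hz0⟩ := h4
  refine ⟨z, (Polynomial.mem_roots'.mp hz).2, ?_⟩
  simp only [Function.comp_apply, Polynomial.eval_sub, Polynomial.eval_X, Polynomial.eval_C] at hz0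
  exact sub_eq_zero.mp hz0

end

end Pool.Agent.Helper11.TR
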