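import Pool.Agent.Helper98.TR.NonSimple
import Pool.Agent.Helper21.TR.Weak

/-!
Square zero elements of irreducible Lie algebras of infinitesimal symplectic operators which are
not simple, with multiplicities (block Q8 of MP_b8862a).
-/

open Module LieAlgebra MTPairs

namespace TR

open MTP MTP.MF Pool.Agent.Helper54.MT

attribute [local instance 100] LieRing.ofAssociativeRing

namespace NS

variable {K : Type*} [Field K] {V : Type*} [AddCommGroup V] [Module K V] [FiniteDimensional K V]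
  {ω : LinearMap.BilinForm K V} {I J : Submodule K (Module.End K V)}

/-- **Two commuting parts**, with an operator which is scalar on the image of a square zero
element of the first part. -/
theorem two_plus [IsAlgClosed K] [CharZero K] [Nontrivial V] (h : Two I J) (hω : ω.Nondegenerate)
    (halt : ω.IsAlt) (hI : ∀ a ∈ I, IsSk ω a) (hJ : ∀ a ∈ J, IsSk ω a)
    (brJ : ∀ x ∈ J, ∀ y ∈ J, x * y - y * x ∈ J)
    {s1 s2 N g1 g2 : Module.End K V} (hs1 : s1 ∈ I) (hss1 : s1 * s1 = 1) (hs2 : s2 ∈ J)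
    (hss2 : s2 * s2 = 1) (hN : N ∈ I) (hN0 : N ≠ 0) (hg1 : g1 ∈ I)
    (hg2 : g2 ∈ J) {σ : K} (hσ : (g1 + g2) * N = σ • N) :
    ∃ d : ℕ, 0 < d ∧ 2 ∣ d ∧ 2 * d ∣ finrank K V ∧ d ∣ rk N ∧ (4 ≤ d ∨ 4 ∣ rk N) ∧
      ∀ a : K, d ∣ finrank K ↥(LinearMap.ker N ⊓ (g1 + g2).maxGenEigenspace a) := by
  obtain ⟨d, S, hd, hdS, hS, hSst, hdvd, hd2⟩ := exists_dim h.symm
  have hdeven : Even d := by
    rw [← hdS]
    exact even_dim h.symm hω hs2 hss2 (hJ s2 hs2) hSst
  have hhalf := half hω hss1 (hI s1 hs1)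
  have h2d : 2 * d ∣ finrank K V := by
    rw [← hhalf]
    apply mul_dvd_mul_left
    exact hdvd _ (fun b hb => eigenspace_stable (h.comm s1 hs1 b hb) 1)
  have hrange : ∀ x ∈ I, ∀ b ∈ J, ∀ w ∈ LinearMap.range x, b w ∈ LinearMap.range x := by
    rintro x hx b hb _ ⟨v, rfl⟩
    refine ⟨b v, ?_⟩
    rw [← Module.End.mul_apply, h.comm x hx b hb]
    rfl
  have hrk : ∀ x ∈ I, d ∣ rk x := fun x hx => hdvd _ (hrange x hx)
  obtain ⟨f, hf, hf0, hff⟩ := exists_sq h.symm hω brJ hs2 hss2 (hJ s2 hs2)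
  have hfour : d = 2 → ∀ x ∈ I, 4 ∣ rk x := by
    intro hd' x hx
    have h1 := hd2 hd' f hf hff hf0 (LinearMap.range x) (hrange x hx)
    have h2 : (LinearMap.range x).map f = LinearMap.range (f * x) := by
      rw [← LinearMap.range_comp]
      rfl
    rw [h2, ← h.comm x hx f hf] at h1
    have h3 := even_rk hω (comm_mul_alt halt (hI x hx) (hJ f hf) (h.comm x hx f hf))
    obtain ⟨k, hk⟩ := h3
    unfold rk at hk ⊢
    rw [hk] at h1
    exact ⟨k, by omega⟩
  -- the operator commutes with the second part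
  have hcomm : ∀ b ∈ J, (g1 + g2) * b = b * (g1 + g2) := by
    intro b hb
    set y : Module.End K V := g2 * b - b * g2 with hy
    have hyJ : y ∈ J := brJ g2 hg2 b hb
    have hy1 : (g1 + g2) * b - b * (g1 + g2) = y := by
      have h1 := h.comm g1 hg1 b hb
      rw [hy, add_mul, mul_add, h1]
      abel
    have hyN : y * N = 0 := by
      rw [← hy1, sub_mul, mul_assoc, mul_assoc, hσ, ← h.comm N hN b hb, ← mul_assoc, hσ,
        mul_smul_comm, smul_mul_assoc, h.comm N hN b hb, sub_self]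
    have h1 := h.symm.eq_top (M := LinearMap.range N) (R := LinearMap.ker y)
      (by
        intro h0
        exact hN0 (LinearMap.range_eq_bot.mp h0))
      (hrange N hN)
      (by
        intro a ha w hw
        rw [LinearMap.mem_ker] at hw ⊢
        rw [← Module.End.mul_apply, ← h.comm a ha y hyJ, Module.End.mul_apply, hw, map_zero])
      (by
        rintro _ ⟨v, rfl⟩
        rw [LinearMap.mem_ker, ← Module.End.mul_apply, hyN]
        rfl)
    have hy0 : y = 0 := LinearMap.ker_eq_top.mp h1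
    rw [hy0] at hy1
    exact sub_eq_zero.mp hy1
  refine ⟨d, hd, hdeven.two_dvd, h2d, hrk N hN, ?_, ?_⟩
  · by_cases hd' : d = 2
    · exact Or.inr (hfour hd' N hN)
    · left
      obtain ⟨c, hc⟩ := hdeven
      omega
  · intro a
    apply hdvd
    intro b hb w hw
    rw [Submodule.mem_inf] at hw ⊢
    refine ⟨?_, ?_⟩
    · have h1 := hw.1
      rw [LinearMap.mem_ker] at h1 ⊢
      rw [← Module.End.mul_apply, h.comm N hN b hb, Module.End.mul_apply, h1, map_zero]
    · exact Module.End.mapsTo_maxGenEigenspace_of_comm (hcomm b hb) a hw.2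

end NS

open NS

variable {K : Type*} [Field K] [CharZero K] [IsAlgClosed K] {V : Type*} [AddCommGroup V]
  [Module K V] [FiniteDimensional K V] {ω : LinearMap.BilinForm K V}

/-- Q8: the case of a Lie algebra which is not simple, with multiplicities. -/
theorem nonsimple_plus [Nontrivial V] {L : LieSubalgebra K (Module.End K V)}
    {S : Set (Module.End K V)}
    (hC : Ctx ω L.toSubmodule S) (halt : ω.IsAlt) (hns : ¬ IsSimple K L)
    {N h : Module.End K V} (hN : N ∈ L) (hNN : N * N = 0) (hN0 : N ≠ 0)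
    (hh : h ∈ L) {σ : K} (hσ : h * N = σ • N) :
    ∃ d : ℕ, 0 < d ∧ 2 ∣ d ∧ 2 * d ∣ finrank K V ∧ d ∣ rk N ∧ (4 ≤ d ∨ 4 ∣ rk N) ∧
      ∀ a : K, d ∣ finrank K ↥(LinearMap.ker N ⊓ h.maxGenEigenspace a) := by
  have hω := hC.nd
  have hk : LieAlgebra.IsKilling K L := killing_of hω hC.irr
  by_cases hab : IsLieAbelian L
  · exfalso
    have hsub : Subsingleton L := LieAlgebra.subsingleton_of_hasTrivialRadical_lie_abelian K L
    apply hN0
    exact congrArg Subtype.val (Subsingleton.elim (⟨N, hN⟩ : L) 0)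
  have hI : ∃ I : LieIdeal K L, I ≠ ⊥ ∧ I ≠ ⊤ := by
    by_contra hcon
    push Not at hcon
    apply hns
    exact { eq_bot_or_eq_top := fun I => by
              by_cases h : I = ⊥
              · exact Or.inl h
              · exact Or.inr (hcon I h)
            non_abelian := hab }
  obtain ⟨I, hI0, hI1⟩ := hI
  set J : LieIdeal K L := Iᶜ with hJ
  have hinf : I ⊓ J = ⊥ := inf_compl_eq_bot
  have hsup : I ⊔ J = ⊤ := sup_compl_eq_top
  have hJ0 : J ≠ ⊥ := by
    intro h
    rw [h, sup_bot_eq] at hsup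
    exact hI1 hsup
  set I' : Submodule K (Module.End K V) := I.toSubmodule.map L.toSubmodule.subtype with hI'
  set J' : Submodule K (Module.End K V) := J.toSubmodule.map L.toSubmodule.subtype with hJ'
  have memI : ∀ a : L, (a : Module.End K V) ∈ I' ↔ a ∈ I := by
    intro a
    constructor
    · rintro ⟨b, hb, hba⟩
      have : b = a := Subtype.ext hba
      rw [← this]; exact hb
    · intro ha
      exact ⟨a, ha, rfl⟩
  have memJ : ∀ a : L, (a : Module.End K V) ∈ J' ↔ a ∈ J := by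
    intro a
    constructor
    · rintro ⟨b, hb, hba⟩
      have : b = a := Subtype.ext hba
      rw [← this]; exact hb
    · intro ha
      exact ⟨a, ha, rfl⟩
  have exI : ∀ x ∈ I', ∃ a : L, a ∈ I ∧ (a : Module.End K V) = x := by
    rintro _ ⟨x, hx, rfl⟩
    exact ⟨x, hx, rfl⟩
  have exJ : ∀ x ∈ J', ∃ a : L, a ∈ J ∧ (a : Module.End K V) = x := by
    rintro _ ⟨x, hx, rfl⟩
    exact ⟨x, hx, rfl⟩
  have brI : ∀ x ∈ I', ∀ z ∈ I', x * z - z * x ∈ I' := by
    intro x hx z hz
    obtain ⟨x, hx', rfl⟩ := exI x hx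
    obtain ⟨z, hz', rfl⟩ := exI z hz
    exact (memI ⁅x, z⁆).mpr (I.lie_mem (x := x) hz')
  have brJ : ∀ x ∈ J', ∀ z ∈ J', x * z - z * x ∈ J' := by
    intro x hx z hz
    obtain ⟨x, hx', rfl⟩ := exJ x hx
    obtain ⟨z, hz', rfl⟩ := exJ z hz
    exact (memJ ⁅x, z⁆).mpr (J.lie_mem (x := x) hz')
  have split : ∀ z ∈ L, ∃ a ∈ I', ∃ b ∈ J', a + b = z := by
    intro z hz
    have : (⟨z, hz⟩ : L) ∈ I ⊔ J := by rw [hsup]; trivial
    rw [LieSubmodule.mem_sup] at this
    obtain ⟨a, ha, b, hb, hab⟩ := this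
    exact ⟨a, (memI a).mpr ha, b, (memJ b).mpr hb, congrArg Subtype.val hab⟩
  have hT : Two I' J' := by
    constructor
    · intro a ha b hb
      obtain ⟨a, ha', rfl⟩ := exI a ha
      obtain ⟨b, hb', rfl⟩ := exJ b hb
      have h1 : ⁅a, b⁆ ∈ I ⊓ J := by
        constructor
        · have := I.lie_mem (x := b) ha'
          rw [← lie_skew] at this
          exact (neg_mem_iff (H := I)).mp this
        · exact J.lie_mem (x := a) hb'
      rw [hinf] at h1
      have h2 : ⁅a, b⁆ = 0 := (LieSubmodule.mem_bot _).mp h1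
      have h3 := congrArg Subtype.val h2
      exact sub_eq_zero.mp h3
    · intro W h1 h2
      apply hC.irr.irr W
      intro z hz w hw
      obtain ⟨a, ha, b, hb, rfl⟩ := split z hz
      rw [LinearMap.add_apply]
      exact W.add_mem (h1 a ha w hw) (h2 b hb w hw)
  have skI : ∀ a ∈ I', MTP.IsSk ω a := by
    rintro _ ⟨a, _, rfl⟩
    exact hC.irr.sk a a.2
  have skJ : ∀ a ∈ J', MTP.IsSk ω a := by
    rintro _ ⟨a, _, rfl⟩
    exact hC.irr.sk a a.2
  have hS : ∀ s ∈ S, s ∈ I' ∨ s ∈ J' := by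
    intro s hs
    obtain ⟨hsL, hss⟩ := hC.inv s hs
    obtain ⟨a, ha, b, hb, rfl⟩ := split s hsL
    rcases hT.inv_split hω skI ha hb hss with h | h
    · right; rw [h, zero_add]; exact hb
    · left; rw [h, add_zero]; exact ha
  have h1 : ∃ s ∈ S, s ∈ I' := by
    by_contra hcon
    push Not at hcon
    have h2 := hC.gen J' brJ (fun s hs => (hS s hs).resolve_left (hcon s hs))
    apply hI0
    rw [eq_bot_iff, ← hinf]
    intro a ha
    exact ⟨ha, (memJ a).mp (h2 a.2)⟩
  have h2 : ∃ s ∈ S, s ∈ J' := by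
    by_contra hcon
    push Not at hcon
    have h2 := hC.gen I' brI (fun s hs => (hS s hs).resolve_right (hcon s hs))
    apply hJ0
    rw [eq_bot_iff, ← hinf]
    intro a ha
    exact ⟨(memI a).mp (h2 a.2), ha⟩
  obtain ⟨s1, hs1, hs1'⟩ := h1
  obtain ⟨s2, hs2, hs2'⟩ := h2
  obtain ⟨y1, hy1, y2, hy2, rfl⟩ := split N hN
  obtain ⟨g1, hg1, g2, hg2, rfl⟩ := split h hh
  rcases split_sq hT hω skI hy1 hy2 hNN with h | h
  · subst h
    rw [zero_add] at hN0 hσ ⊢
    rw [add_comm g1 g2] at hσ ⊢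
    exact two_plus hT.symm hω halt skJ skI brI hs2' (hC.inv s2 hs2).2 hs1' (hC.inv s1 hs1).2
      hy2 hN0 hg2 hg1 hσ
  · subst h
    rw [add_zero] at hN0 hσ ⊢
    exact two_plus hT hω halt skI skJ brJ hs1' (hC.inv s1 hs1).2 hs2' (hC.inv s2 hs2).2
      hy1 hN0 hg1 hg2 hσ

end TR
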